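import Pool.Agent.Lib_ae0d71.Example

set_option autoImplicit false

namespace Pool.Agent.Results.MP_ae0d71_al.LinkedComplexity

open Pool.Agent.Lib_ae0d71

/-- Complexity is not preserved by Gorenstein linkage: there are an Artinian Gorenstein local ring
`R` and proper ideals `I`, `J` linked by a Gorenstein perfect ideal, with `R / I` and `R / J`
Cohen-Macaulay, such that `cx I ≤ 3` and `cx J = ∞`. -/
theorem result : ∃ (R : Type) (_ : CommRing R) (_ : IsLocalRing R) (a I J : Ideal R),
    IsGorensteinLocal R ∧ IsArtinianRing R ∧ I ≠ ⊤ ∧ J ≠ ⊤ ∧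
    IsGorensteinPerfect a ∧ IsLinkedBy a I J ∧
    IsCohenMacaulayLocal (R ⧸ I) ∧ IsCohenMacaulayLocal (R ⧸ J) ∧
    cx R I ≠ cx R J ∧ cx R I ≤ 3 ∧ cx R J = ⊤ := by
  have h : IsExample S ⊥ II JJ := the_example
  refine ⟨S, inferInstance, inferInstance, ⊥, II, JJ, h.gor, h.art, h.left_ne_top, h.right_ne_top,
    h.perfect, h.linked, h.cm_left, h.cm_right, ?_, h.cx_left, h.cx_right⟩
  intro h0
  have h1 := h.cx_left
  rw [h0, h.cx_right] at h1
  exact absurd h1 (by decide)

end Pool.Agent.Results.MP_ae0d71_al.LinkedComplexity
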